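import Pool.Agent.L0h56.HS.Stm

set_option autoImplicit false

/-!
# HUA: additive subgroups closed under inverses in finite fields of characteristic two
-/

namespace Pool.Agent.L0h29.HS

theorem hua {F : Type} [Field F] (U : AddSubgroup F) (hi : ∀ x ∈ U, x⁻¹ ∈ U) {a b : F}
    (ha : a ∈ U) (hb : b ∈ U) (ha0 : a ≠ 0) (hb0 : b ≠ 0) (hab : a * b ≠ 1) : a ^ 2 * b ∈ U := by
  have h1 : b⁻¹ - a ≠ 0 := by
    intro h
    apply hab
    have h2 : a = b⁻¹ := (sub_eq_zero.1 h).symm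
    rw [h2, inv_mul_cancel₀ hb0]
  have h2 : (a⁻¹ + (b⁻¹ - a)⁻¹)⁻¹ ∈ U :=
    hi _ (U.add_mem (hi a ha) (hi _ (U.sub_mem (hi b hb) ha)))
  have h3 : (a⁻¹ + (b⁻¹ - a)⁻¹)⁻¹ = a - a ^ 2 * b := by
    have h4 : a⁻¹ + (b⁻¹ - a)⁻¹ = b⁻¹ / (a * (b⁻¹ - a)) := by
      rw [eq_div_iff (mul_ne_zero ha0 h1), add_mul, ← mul_assoc, inv_mul_cancel₀ ha0, one_mul,
        mul_comm a, ← mul_assoc, inv_mul_cancel₀ h1, one_mul]
      ring
    rw [h4, inv_div, div_inv_eq_mul, mul_assoc, sub_mul, inv_mul_cancel₀ hb0]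
    ring
  rw [h3] at h2
  have h5 := U.sub_mem ha h2
  have h6 : a - (a - a ^ 2 * b) = a ^ 2 * b := by ring
  rwa [h6] at h5

theorem t_HUA : Pool.Agent.L0h56.HS.S_HUA := by
  intro F _ _ _ U h1 hi x hx y hy
  have hsq : ∀ a ∈ U, a ^ 2 ∈ U := by
    intro a ha
    by_cases ha0 : a = 0
    · rw [ha0, zero_pow two_ne_zero]
      exact U.zero_mem
    · by_cases ha1 : a = 1
      · rw [ha1, one_pow]
        exact h1
      · have h := hua U hi ha h1 ha0 one_ne_zero (by rwa [mul_one])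
        rwa [mul_one] at h
  have hinj : Function.Injective fun a : U => (⟨(a : F) ^ 2, hsq a a.2⟩ : U) := by
    intro a b h
    have h2 : (a : F) ^ 2 = (b : F) ^ 2 := congrArg Subtype.val h
    exact Subtype.ext (frobenius_inj F 2 h2)
  obtain ⟨a, ha⟩ := (Finite.injective_iff_surjective.1 hinj) ⟨x, hx⟩
  have hax : (a : F) ^ 2 = x := congrArg Subtype.val ha
  rw [← hax]
  by_cases ha0 : (a : F) = 0
  · rw [ha0, zero_pow two_ne_zero, zero_mul]
    exact U.zero_mem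
  by_cases hy0 : y = 0
  · rw [hy0, mul_zero]
    exact U.zero_mem
  by_cases hay : (a : F) * y = 1
  · rw [sq, mul_assoc, hay, mul_one]
    exact a.2
  · exact hua U hi a.2 hy ha0 hy0 hay

end Pool.Agent.L0h29.HS
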